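import Pool.Agent.H.MP_52010b_lc.Defs

/-!
Instances given by lists of numbers.
-/

namespace Pool.Agent.H.MP_52010b_lc

open Finset

/-- data of an instance, with natural numbers -/
structure Data where
  nR : ℕ
  nH : ℕ
  pR : ℕ → List ℕ
  pH : ℕ → List ℕ
  nodR : ∀ r < nR, (pR r).Nodup
  nodH : ∀ h < nH, (pH h).Nodup
  ltR : ∀ r < nR, ∀ h ∈ pR r, h < nH
  ltH : ∀ h < nH, ∀ r ∈ pH h, r < nR
  acc : ∀ r < nR, ∀ h < nH, h ∈ pR r ↔ r ∈ pH h

theorem map_pmap_mk {n : ℕ} (l : List ℕ) (h : ∀ x ∈ l, x < n) :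
    (l.pmap Fin.mk h).map Fin.val = l := by
  induction l with
  | nil => rfl
  | cons a l ih =>
    rw [List.pmap_cons, List.map_cons, ih]

theorem mem_pmap_mk {n : ℕ} {l : List ℕ} (h : ∀ x ∈ l, x < n) (a : Fin n) :
    a ∈ l.pmap Fin.mk h ↔ a.val ∈ l := by
  rw [List.mem_pmap]
  constructor
  · rintro ⟨x, hx, rfl⟩
    exact hx
  · intro ha
    exact ⟨a.val, ha, rfl⟩

theorem idxOf_map_inj {A B : Type} [DecidableEq A] [DecidableEq B] {f : A → B}
    (hf : Function.Injective f) (l : List A) (a : A) : (l.map f).idxOf (f a) = l.idxOf a := by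
  induction l with
  | nil => rfl
  | cons b l ih =>
    rw [List.map_cons, List.idxOf_cons, List.idxOf_cons, ih]
    by_cases h : b = a
    · subst h; rw [beq_self_eq_true, beq_self_eq_true]
    · have h2 : f b ≠ f a := fun e => h (hf e)
      rw [beq_false_of_ne h, beq_false_of_ne h2]

theorem before_pmap {n : ℕ} {l : List ℕ} (h : ∀ x ∈ l, x < n) (a b : Fin n) :
    Before (l.pmap Fin.mk h) a b ↔ Before l a.val b.val := by
  unfold Before
  rw [← idxOf_map_inj Fin.val_injective (l.pmap Fin.mk h) a,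
    ← idxOf_map_inj Fin.val_injective (l.pmap Fin.mk h) b, map_pmap_mk]

/-- the instance with all quotas equal to two -/
abbrev Data.inst (D : Data) : Inst where
  nR := D.nR
  nH := D.nH
  prefR r := (D.pR r.val).pmap Fin.mk (D.ltR r.val r.isLt)
  prefH h := (D.pH h.val).pmap Fin.mk (D.ltH h.val h.isLt)
  low _ := 2
  up _ := 2
  nodupR r := by
    apply List.Nodup.of_map Fin.val
    rw [map_pmap_mk]
    exact D.nodR r.val r.isLt
  nodupH h := by
    apply List.Nodup.of_map Fin.val
    rw [map_pmap_mk]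
    exact D.nodH h.val h.isLt
  acceptable r h := by
    rw [mem_pmap_mk, mem_pmap_mk]
    exact D.acc r.val r.isLt h.val h.isLt
  up_pos _ := by norm_num
  low_le _ := le_rfl

open Inst

variable {D : Data}

theorem load_eq_two {M : D.inst.Asg} {h : Fin D.inst.nH} {a b : Fin D.inst.nR} (hab : a ≠ b)
    (hM : ∀ r, M r = some h ↔ r = a ∨ r = b) : load M h = 2 := by
  unfold load
  have e : (univ.filter fun r => M r = some h) = {a, b} := by
    ext r
    simp only [mem_filter, mem_univ, true_and, mem_insert, mem_singleton]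
    exact hM r
  rw [e, card_pair hab]

theorem load_eq_zero {M : D.inst.Asg} {h : Fin D.inst.nH} (hM : ∀ r, M r ≠ some h) :
    load M h = 0 := by
  unfold load
  rw [card_eq_zero, filter_eq_empty_iff]
  intro r _
  exact hM r

/-- from a matching covering all residents -/
theorem exists_fun {M : D.inst.Asg} {O : Set (Fin D.inst.nH)} (hM : PairwiseStable M O)
    (hs : D.nR ≤ size M) :
    ∃ m : ℕ → ℕ, (∀ r < D.nR, m r ∈ D.pR r) ∧
      (∀ r < D.nR, ∀ a, D.pH (m r) = [a] → False) ∧
      (∀ r < D.nR, ∀ a b, D.pH (m r) = [a, b] → m a = m r ∧ m b = m r) ∧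
      (∀ r < D.nR, ∀ y < D.nR, m r ∈ D.pR y → Before (D.pR y) (m r) (m y) →
        Before (D.pH (m r)) y r → False) := by
  classical
  have hall : ∀ r : Fin D.inst.nR, M r ≠ none := by
    have h1 : (univ.filter fun r : Fin D.inst.nR => M r ≠ none) = univ := by
      apply eq_univ_of_card
      apply le_antisymm (card_le_univ _)
      rw [Fintype.card_fin]
      exact hs
    intro r
    have := mem_univ r
    rw [← h1, mem_filter] at this
    exact this.2
  let m : ℕ → ℕ := fun r => if hr : r < D.nR then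
    (match M ⟨r, hr⟩ with | some h => h.val | none => 0) else 0
  have hm : ∀ (r : ℕ) (hr : r < D.nR), ∃ h : Fin D.inst.nH, M ⟨r, hr⟩ = some h ∧ m r = h.val := by
    intro r hr
    cases h : M ⟨r, hr⟩ with
    | none => exact absurd h (hall _)
    | some h' =>
      refine ⟨h', rfl, ?_⟩
      simp only [m, dif_pos hr, h]
  have hload : ∀ (r : ℕ) (hr : r < D.nR) (h : Fin D.inst.nH), M ⟨r, hr⟩ = some h →
      h ∈ O ∧ load M h = 2 := by
    intro r hr h hrh
    have h0 : load M h ≠ 0 := by
      unfold load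
      rw [Ne, card_eq_zero, filter_eq_empty_iff]
      intro h1
      exact h1 (mem_univ ⟨r, hr⟩) hrh
    have hO : h ∈ O := by
      by_contra hc
      exact h0 ((hM.1.2 h).1 hc)
    have h2 := (hM.1.2 h).2 hO
    exact ⟨hO, le_antisymm h2.2 h2.1⟩
  have hsub : ∀ (h : Fin D.inst.nH) (r : Fin D.inst.nR), M r = some h → r.val ∈ D.pH h.val := by
    intro h r hr
    have h1 := hM.1.1 r h hr
    have h2 := (D.inst.acceptable r h).1 h1
    exact (mem_pmap_mk _ _).1 h2
  refine ⟨m, ?_, ?_, ?_, ?_⟩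
  · intro r hr
    obtain ⟨h, h1, h2⟩ := hm r hr
    rw [h2]
    exact (mem_pmap_mk _ _).1 (hM.1.1 _ _ h1)
  · intro r hr a ha
    obtain ⟨h, h1, h2⟩ := hm r hr
    rw [h2] at ha
    have h3 := (hload r hr h h1).2
    have h4 : load M h ≤ 1 := by
      unfold load
      rw [card_le_one]
      intro x hx y hy
      rw [mem_filter] at hx hy
      have hx' := hsub h x hx.2
      have hy' := hsub h y hy.2
      rw [ha, List.mem_singleton] at hx' hy'
      exact Fin.ext (hx'.trans hy'.symm)
    omega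
  · intro r hr a b hab
    obtain ⟨h, h1, h2⟩ := hm r hr
    have hab' := hab
    rw [h2] at hab
    have h3 := (hload r hr h h1).2
    have hnd := D.nodH h.val h.isLt
    have hlt := D.ltH h.val h.isLt
    rw [hab] at hnd hlt
    have ha : a < D.nR := hlt a (by simp)
    have hb : b < D.nR := hlt b (by simp)
    have hsub2 : (univ.filter fun x : Fin D.inst.nR => M x = some h) ⊆ {⟨a, ha⟩, ⟨b, hb⟩} := by
      intro x hx
      rw [mem_filter] at hx
      have hx' := hsub h x hx.2
      rw [hab] at hx'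
      simp only [List.mem_cons, List.not_mem_nil, or_false] at hx'
      rw [mem_insert, mem_singleton]
      rcases hx' with e | e
      · left; exact Fin.ext e
      · right; exact Fin.ext e
    have heq : (univ.filter fun x : Fin D.inst.nR => M x = some h) = {⟨a, ha⟩, ⟨b, hb⟩} := by
      apply eq_of_subset_of_card_le hsub2
      unfold load at h3
      have : (univ.filter fun x : Fin D.inst.nR => M x = some h).card = 2 := h3
      rw [this]
      exact card_le_two
    have key : ∀ (c : ℕ) (hc : c < D.nR), (⟨c, hc⟩ : Fin D.inst.nR) ∈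
        (univ.filter fun x : Fin D.inst.nR => M x = some h) → m c = m r := by
      intro c hc hmem
      rw [mem_filter] at hmem
      obtain ⟨h', h1', h2'⟩ := hm c hc
      rw [hmem.2, Option.some.injEq] at h1'
      rw [h2', ← h1', h2]
    exact ⟨key a ha (by rw [heq]; simp), key b hb (by rw [heq]; simp)⟩
  · intro r hr y hy hmem hb1 hb2
    obtain ⟨h, h1, h2⟩ := hm r hr
    obtain ⟨h', h1', h2'⟩ := hm y hy
    refine hM.2 ⟨y, hy⟩ h (hload r hr h h1).1 ⟨?_, Or.inr ⟨h', h1', ?_⟩⟩ (Or.inr ⟨⟨r, hr⟩, h1, ?_⟩)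
    · apply (mem_pmap_mk _ _).2
      rw [← h2]
      exact hmem
    · apply (before_pmap _ _ _).2
      rw [← h2, ← h2']
      exact hb1
    · apply (before_pmap _ _ _).2
      rw [← h2]
      exact hb2

/-- towards a matching covering all residents -/
theorem exists_matching (m : ℕ → ℕ) (h1 : ∀ r < D.nR, m r ∈ D.pR r)
    (h2 : ∀ r < D.nR, ∃ a b, a ≠ b ∧ a < D.nR ∧ b < D.nR ∧
      (∀ x < D.nR, m x = m r ↔ x = a ∨ x = b))
    (h3 : ∀ r < D.nR, ∀ y < D.nR, m r ∈ D.pR y → Before (D.pR y) (m r) (m y) → ∀ x < D.nR,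
      m x = m r → Before (D.pH (m r)) y x → False) :
    ∃ (M : D.inst.Asg) (O : Set (Fin D.inst.nH)), PairwiseStable M O ∧ D.nR ≤ size M := by
  classical
  have hlt : ∀ r < D.nR, m r < D.nH := fun r hr => D.ltR r hr _ (h1 r hr)
  let M : D.inst.Asg := fun r => some ⟨m r.val, hlt r.val r.isLt⟩
  have hMr : ∀ (r : Fin D.inst.nR) (h : Fin D.inst.nH), M r = some h ↔ m r.val = h.val := by
    intro r h
    simp only [M, Option.some.injEq, Fin.ext_iff]
  have hload : ∀ r : Fin D.inst.nR, load M ⟨m r.val, hlt r.val r.isLt⟩ = 2 := by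
    intro r
    obtain ⟨a, b, hab, ha, hb, h⟩ := h2 r.val r.isLt
    refine load_eq_two (a := ⟨a, ha⟩) (b := ⟨b, hb⟩) (fun e => hab (congrArg Fin.val e)) fun x => ?_
    rw [hMr, h x.val x.isLt, Fin.ext_iff, Fin.ext_iff]
  refine ⟨M, {h | ∃ r, M r = some h}, ⟨⟨?_, ?_⟩, ?_⟩, ?_⟩
  · intro r h hr
    rw [hMr] at hr
    apply (mem_pmap_mk _ _).2
    rw [← hr]
    exact h1 r.val r.isLt
  · intro h
    constructor
    · intro hO
      apply load_eq_zero
      intro r hr
      exact hO ⟨r, hr⟩
    · rintro ⟨r, hr⟩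
      have h4 := hload r
      have e : (⟨m r.val, hlt r.val r.isLt⟩ : Fin D.inst.nH) = h := Fin.ext ((hMr r h).1 hr)
      rw [e] at h4
      exact ⟨h4.ge, h4.le⟩
  · rintro y h ⟨r, hr⟩ ⟨hmem, hw⟩ hadm
    have e : (⟨m r.val, hlt r.val r.isLt⟩ : Fin D.inst.nH) = h := Fin.ext ((hMr r h).1 hr)
    subst e
    rcases hw with hw | ⟨h', hw1, hw2⟩
    · simp [M] at hw
    · rcases hadm with ha | ⟨x, hx1, hx2⟩
      · rw [hload r] at ha
        exact lt_irrefl _ ha
      · refine h3 r.val r.isLt y.val y.isLt ((mem_pmap_mk _ _).1 hmem) ?_ x.val x.isLt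
          ((hMr _ _).1 hx1) ((before_pmap _ _ _).1 hx2)
        have h5 := (before_pmap _ _ _).1 hw2
        rw [hMr] at hw1
        rw [hw1]
        exact h5
  · have e : (univ.filter fun r : Fin D.inst.nR => M r ≠ none) = univ := by
      ext r
      simp [M]
    change D.nR ≤ (univ.filter fun r : Fin D.inst.nR => M r ≠ none).card
    rw [e, card_univ, Fintype.card_fin]

end Pool.Agent.H.MP_52010b_lc
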