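import Mathlib

/-!
Hospitals/Residents with lower quotas: instances, pairwise stable matchings, popular hospitals,
the code of an instance, and the class NP.
-/

namespace Pool.Agent.H.MP_52010b_lc

open Turing

/-- An instance: residents `Fin nR`, hospitals `Fin nH`, strict preference lists (lists without
repetitions; the first entry is the best one) of the acceptable hospitals and residents, and for
each hospital a lower quota and an upper quota. -/
structure Inst where
  nR : ℕ
  nH : ℕ
  prefR : Fin nR → List (Fin nH)
  prefH : Fin nH → List (Fin nR)
  low : Fin nH → ℕ
  up : Fin nH → ℕ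
  nodupR : ∀ r, (prefR r).Nodup
  nodupH : ∀ h, (prefH h).Nodup
  acceptable : ∀ r h, h ∈ prefR r ↔ r ∈ prefH h
  up_pos : ∀ h, 1 ≤ up h
  low_le : ∀ h, low h ≤ up h

/-- `a` is ranked before `b` in the list `l`. -/
def Before {A : Type} [DecidableEq A] (l : List A) (a b : A) : Prop := l.idxOf a < l.idxOf b

namespace Inst

variable (I : Inst)

/-- An assignment gives to each resident a hospital or nothing. -/
abbrev Asg : Type := Fin I.nR → Option (Fin I.nH)

variable {I}

/-- the number of residents assigned to a hospital -/
def load (M : I.Asg) (h : Fin I.nH) : ℕ := (Finset.univ.filter fun r => M r = some h).card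

/-- the number of assigned residents -/
def size (M : I.Asg) : ℕ := (Finset.univ.filter fun r => M r ≠ none).card

/-- residents are assigned to acceptable hospitals only -/
def Acceptable (M : I.Asg) : Prop := ∀ r h, M r = some h → h ∈ I.prefR r

/-- The resident `r` finds `h` acceptable, and she is unassigned or prefers `h` to her hospital. -/
def Wants (M : I.Asg) (r : Fin I.nR) (h : Fin I.nH) : Prop :=
  h ∈ I.prefR r ∧ (M r = none ∨ ∃ h', M r = some h' ∧ Before (I.prefR r) h h')

/-- The hospital `h` has a free place or prefers `r` to some resident assigned to it. -/
def Admits (M : I.Asg) (h : Fin I.nH) (r : Fin I.nR) : Prop :=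
  load M h < I.up h ∨ ∃ r', M r' = some h ∧ Before (I.prefH h) r r'

/-- A matching of the instance, with the set `O` of open hospitals: a closed hospital has no
resident, an open one has a number of residents between its quotas. -/
def IsMatching (M : I.Asg) (O : Set (Fin I.nH)) : Prop :=
  Acceptable M ∧ ∀ h, (h ∉ O → load M h = 0) ∧ (h ∈ O → I.low h ≤ load M h ∧ load M h ≤ I.up h)

/-- Pairwise stable matchings: no resident wants an open hospital which would admit her. -/
def PairwiseStable (M : I.Asg) (O : Set (Fin I.nH)) : Prop :=
  IsMatching M O ∧ ∀ r h, h ∈ O → Wants M r h → ¬ Admits M h r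

/-- Stable matchings of the classical instance `J` (the lower quotas are ignored). -/
def ClassicalStable (M : I.Asg) : Prop :=
  Acceptable M ∧ (∀ h, load M h ≤ I.up h) ∧ ∀ r h, Wants M r h → ¬ Admits M h r

/-- `M` is the resident-optimal stable matching of `J`: each resident is at least as well off in
`M` as in any other stable matching. -/
def ResidentOptimal (M : I.Asg) : Prop :=
  ClassicalStable M ∧ ∀ M' : I.Asg, ClassicalStable M' → ∀ r h', M' r = some h' →
    M r = some h' ∨ ∃ h, M r = some h ∧ Before (I.prefR r) h h'

/-- A hospital is popular when the resident-optimal stable matching of `J` meets its lower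
quota. -/
def Popular (I : Inst) (h : Fin I.nH) : Prop := ∃ M : I.Asg, ResidentOptimal M ∧ I.low h ≤ load M h

/-- Popular pairwise stable matchings: all the popular hospitals are open. -/
def PopularStable (M : I.Asg) (O : Set (Fin I.nH)) : Prop :=
  PairwiseStable M O ∧ ∀ h, Popular I h → h ∈ O

end Inst

/-- the binary digits of a number, followed by the separator `some none` -/
def encNat (a : ℕ) : List (Option (Option Bool)) :=
  (Nat.bits a).map (fun b => some (some b)) ++ [some none]

/-- the codes of the numbers of a list, followed by the separator `none` -/
def encList (l : List ℕ) : List (Option (Option Bool)) := l.flatMap encNat ++ [none]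

/-- The code of an instance and a number `K`: the numbers `nR`, `nH` and `K`, the preference lists
of the residents, and for each hospital its lower quota, its upper quota and its preference list.
All numbers are written in binary. -/
def encode (p : Inst × ℕ) : List (Option (Option Bool)) :=
  encList [p.1.nR, p.1.nH, p.2] ++
    (((List.finRange p.1.nR).flatMap fun r => encList ((p.1.prefR r).map Fin.val)) ++
    ((List.finRange p.1.nH).flatMap fun h =>
      encList (p.1.low h :: p.1.up h :: (p.1.prefH h).map Fin.val)))

/-- A language `L` over the alphabet `Γ` is in NP: there are a polynomial `p` and a verifier `V`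
which is computable in polynomial time (by the machines `FinTM2` of Mathlib), such that
`x ∈ L` exactly when some witness `w`, a bit string of length at most `p (length of x)`, is
accepted. The pair `(x, w)` is given to the verifier as the string `x` followed by the string
`w`, over the alphabet `Γ ⊕ Bool`. -/
def InNP {Γ : Type} (L : Set (List Γ)) : Prop :=
  ∃ (p : Polynomial ℕ) (V : List Γ × List Bool → Bool),
    Nonempty (TM2ComputableInPolyTime
      (fun z : List Γ × List Bool => z.1.map Sum.inl ++ z.2.map (Sum.inr : Bool → Γ ⊕ Bool))
      (fun b : Bool => [b]) V) ∧
    ∀ x, x ∈ L ↔ ∃ w : List Bool, w.length ≤ p.eval x.length ∧ V (x, w) = true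

end Pool.Agent.H.MP_52010b_lc
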