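import Pool.Agent.H.MP_52010b_lc.Gadget

/-!
The instance has a pairwise stable matching of all residents exactly when the formula is
satisfiable; no hospital of the instance is popular.
-/

namespace Pool.Agent.H.MP_52010b_lc

theorem idx_self (a : ℕ) (l : List ℕ) : (a :: l).idxOf a = 0 := List.idxOf_cons_self
theorem idx_ne {a b : ℕ} (h : b ≠ a) (l : List ℕ) : (b :: l).idxOf a = l.idxOf a + 1 :=
  List.idxOf_cons_ne l h

theorem before34 {q a b c : ℕ} (h1 : q ≠ b) (h2 : a ≠ b) (h3 : q ≠ c) (h4 : a ≠ c)
    (h5 : b ≠ c) : Before [q, a, b, c] b c := by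
  unfold Before
  rw [idx_ne h1, idx_ne h2, idx_self, idx_ne h3, idx_ne h4, idx_ne h5, idx_self]
  omega

theorem not_before32 {q a b c : ℕ} (h1 : q ≠ b) (h2 : a ≠ b) (h3 : q ≠ a) :
    ¬ Before [q, a, b, c] b a := by
  unfold Before
  rw [idx_ne h1, idx_ne h2, idx_self, idx_ne h3, idx_self]
  omega

theorem before_head {y a : ℕ} (l : List ℕ) (h : y ≠ a) : Before (y :: l) y a := by
  unfold Before
  rw [idx_self, idx_ne h]
  omega

variable {mc S : ℕ} {lit : ℕ → ℕ} (hlit : ∀ s < 3 * mc, lit s / 2 < S)
include hlit

open Inst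

theorem nR_eq : (dat mc S lit hlit).nR = BB mc S + 2 * mc := rfl
theorem nH_eq : (dat mc S lit hlit).nH = QQ mc S + (BB mc S + 2 * mc) := rfl
theorem pR_eq : (dat mc S lit hlit).pR = pR mc S lit := rfl
theorem pH_eq : (dat mc S lit hlit).pH = pH mc S lit := rfl

/-- from a matching to an assignment -/
theorem sat_of_matching {M : (dat mc S lit hlit).inst.Asg}
    {O : Set (Fin (dat mc S lit hlit).inst.nH)} (hM : PairwiseStable M O)
    (hs : (dat mc S lit hlit).nR ≤ size M) :
    ∃ τ : ℕ → Bool, ∀ j < mc, ∃ i < 3, lv τ (lit (3 * j + i)) = true := by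
  obtain ⟨m, hA, hB, hC, hE⟩ := exists_fun hM hs
  rw [nR_eq, pR_eq] at hA
  rw [nR_eq, pH_eq] at hB hC
  rw [nR_eq, pR_eq, pH_eq] at hE
  have hQ : QQ mc S = BB mc S + 3 * mc := rfl
  have hnc : nc mc = 6 * mc + 2 := rfl
  -- private hospitals are closed
  have h1 : ∀ r < BB mc S + 2 * mc, m r ≠ QQ mc S + r := by
    intro r hr e
    refine hB r hr r ?_
    rw [e]
    unfold pH
    rw [if_neg (by omega), if_neg (by omega), Nat.add_sub_cancel_left]
  -- hospitals of the cycles
  have h2 : ∀ r < BB mc S + 2 * mc, m r < BB mc S → m (m r) = m r ∧ m (nxt mc (m r)) = m r := by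
    intro r hr hlt
    apply hC r hr
    unfold pH
    rw [if_pos hlt]
  have h3 : ∀ r < BB mc S, r % nc mc % 2 = 1 → m r = r ∨ m r = prv mc r := by
    intro r hr hodd
    have h4 := hA r (by omega)
    rw [mem_pR] at h4
    rcases h4 with e | ⟨-, e | e | ⟨hu, -⟩⟩ | ⟨h, -⟩
    · exact absurd e (h1 r (by omega))
    · exact Or.inl e
    · exact Or.inr e
    · have := hu.1
      omega
    · omega
  have h4 : ∀ r < BB mc S, r % nc mc % 2 = 1 → m r = r → m (nxt mc r) = r := by
    intro r hr _ e
    have := h2 r (by omega) (by omega)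
    rw [e] at this
    exact this.2
  have h5 : ∀ r < BB mc S, m r = prv mc r → m (prv mc r) = prv mc r := by
    intro r hr e
    have hp := prv_lt (mc := mc) (S := S) hr
    have := h2 r (by omega) (by omega)
    rw [e] at this
    exact this.1
  -- orientation of the cycles
  have h6 : ∀ v < S, ∀ k, k % 2 = 1 → k < nc mc → m (v * nc mc + k) = v * nc mc + k →
      ∀ d, k + 2 * d < nc mc → m (v * nc mc + (k + 2 * d)) = v * nc mc + (k + 2 * d) := by
    intro v hv k hk hkn hmk d
    induction d with
    | zero => intro _; exact hmk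
    | succ d ih =>
      intro hd
      have ih' := ih (by omega)
      have a1 := of_pair (mc := mc) (v := v) (t := k + 2 * d) (by omega)
      have a2 := of_pair (mc := mc) (v := v) (t := k + 2 * d + 1) (by omega)
      have a3 := of_pair (mc := mc) (v := v) (t := k + 2 * d + 2) (by omega)
      have b1 : v * nc mc + (k + 2 * d) < BB mc S := by rw [lt_BB, a1.2]; exact hv
      have b3 : v * nc mc + (k + 2 * d + 2) < BB mc S := by rw [lt_BB, a3.2]; exact hv
      have c1 : nxt mc (v * nc mc + (k + 2 * d)) = v * nc mc + (k + 2 * d + 1) := by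
        unfold nxt
        rw [a1.1, if_neg (by omega)]
        omega
      have c2 : prv mc (v * nc mc + (k + 2 * d + 2)) = v * nc mc + (k + 2 * d + 1) := by
        unfold prv
        rw [a3.1, if_neg (by omega)]
        omega
      have d1 := h4 _ b1 (by rw [a1.1]; omega) ih'
      rw [c1] at d1
      have e1 : k + 2 * (d + 1) = k + 2 * d + 2 := by ring
      rw [e1]
      rcases h3 _ b3 (by rw [a3.1]; omega) with e | e
      · exact e
      · have f1 := h5 _ b3 e
        rw [c2] at f1
        omega
  have h7 : ∀ v < S, ∀ k, k % 2 = 0 → k < nc mc →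
      m (v * nc mc + k) = if m (v * nc mc) = v * nc mc then v * nc mc + k else
        prv mc (v * nc mc + k) := by
    intro v hv k hk hkn
    have a0 := of_pair (mc := mc) (v := v) (t := 0) (by omega)
    have a1 := of_pair (mc := mc) (v := v) (t := 1) (by omega)
    have ak := of_pair (mc := mc) (v := v) (t := k) hkn
    have ak1 := of_pair (mc := mc) (v := v) (t := k + 1) (by omega)
    have al := of_pair (mc := mc) (v := v) (t := nc mc - 1) (by omega)
    have b0 : v * nc mc + 0 < BB mc S := by rw [lt_BB, a0.2]; exact hv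
    have b1 : v * nc mc + 1 < BB mc S := by rw [lt_BB, a1.2]; exact hv
    have bk1 : v * nc mc + (k + 1) < BB mc S := by rw [lt_BB, ak1.2]; exact hv
    have bl : v * nc mc + (nc mc - 1) < BB mc S := by rw [lt_BB, al.2]; exact hv
    have cl : nxt mc (v * nc mc + (nc mc - 1)) = v * nc mc := by
      unfold nxt
      rw [al.1, if_pos rfl]
      omega
    have hlast : ∀ k, k % 2 = 1 → k < nc mc → m (v * nc mc + k) = v * nc mc + k →
        m (v * nc mc) = v * nc mc + (nc mc - 1) := by
      intro k hk hkn hmk
      have f1 := h6 v hv k hk hkn hmk ((nc mc - 1 - k) / 2) (by omega)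
      have e1 : k + 2 * ((nc mc - 1 - k) / 2) = nc mc - 1 := by omega
      rw [e1] at f1
      have f2 := h4 _ bl (by rw [al.1]; omega) f1
      rw [cl] at f2
      exact f2
    by_cases hc : m (v * nc mc) = v * nc mc
    · rw [if_pos hc]
      have c1 : prv mc (v * nc mc + (k + 1)) = v * nc mc + k := by
        unfold prv
        rw [ak1.1, if_neg (by omega)]
        omega
      rcases h3 _ bk1 (by rw [ak1.1]; omega) with e | e
      · have := hlast (k + 1) (by omega) (by omega) e
        omega
      · have f1 := h5 _ bk1 e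
        rw [c1] at f1
        exact f1
    · rw [if_neg hc]
      have c1 : prv mc (v * nc mc + 1) = v * nc mc := by
        unfold prv
        rw [a1.1, if_neg (by omega)]
        omega
      have f1 : m (v * nc mc + 1) = v * nc mc + 1 := by
        rcases h3 _ b1 (by rw [a1.1]) with e | e
        · exact e
        · have := h5 _ b1 e
          rw [c1] at this
          exact absurd this hc
      by_cases hk0 : k = 0
      · subst hk0
        have := hlast 1 rfl (by omega) f1
        rw [add_zero, this]
        unfold prv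
        rw [add_zero] at a0
        rw [a0.1, if_pos rfl]
      · have f2 := h6 v hv 1 rfl (by omega) f1 ((k - 2) / 2) (by omega)
        have e1 : 1 + 2 * ((k - 2) / 2) = k - 1 := by omega
        rw [e1] at f2
        have am := of_pair (mc := mc) (v := v) (t := k - 1) (by omega)
        have bm : v * nc mc + (k - 1) < BB mc S := by rw [lt_BB, am.2]; exact hv
        have f3 := h4 _ bm (by rw [am.1]; omega) f2
        have c2 : nxt mc (v * nc mc + (k - 1)) = v * nc mc + k := by
          unfold nxt
          rw [am.1, if_neg (by omega)]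
          omega
        rw [c2] at f3
        rw [f3]
        unfold prv
        rw [ak.1, if_neg hk0]
        omega
  refine ⟨fun v => decide (m (v * nc mc) = v * nc mc), fun j hj => ?_⟩
  -- the clause residents
  have hc := hA (BB mc S + 2 * j) (by omega)
  rw [mem_pR] at hc
  have ej : (BB mc S + 2 * j - BB mc S) / 2 = j := by omega
  rw [ej] at hc
  have key : ∀ i < 3, m (BB mc S + 2 * j) = BB mc S + 3 * j + i →
      lv (fun v => decide (m (v * nc mc) = v * nc mc)) (lit (3 * j + i)) = true := by
    intro i hi hmi
    set s := 3 * j + i with hs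
    have hs3 : s < 3 * mc := by omega
    have hy := yy_lt hlit hs3
    have hyu := used_yy (lit := lit) hs3
    have hys := sl_yy (lit := lit) hs3
    have hspec := yy_spec (lit := lit) hs3
    have hm' : m (BB mc S + 2 * j) = BB mc S + s := by rw [hmi, hs]; ring
    have hE' := hE (BB mc S + 2 * j) (by omega) (yy mc lit s) (by omega)
    rw [hm'] at hE'
    have e1 : BB mc S + s ∈ pR mc S lit (yy mc lit s) := by
      rw [mem_pR]
      right; left
      exact ⟨hy, Or.inr (Or.inr ⟨hyu, by rw [hys]⟩)⟩
    have e2 : Before (pH mc S lit (BB mc S + s)) (yy mc lit s) (BB mc S + 2 * j) := by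
      unfold pH
      rw [if_neg (by omega), if_pos (by omega), Nat.add_sub_cancel_left]
      exact before_head _ (by omega)
    have hE2 : ¬ Before (pR mc S lit (yy mc lit s)) (BB mc S + s) (m (yy mc lit s)) :=
      fun hb => hE' e1 hb e2
    have hym : yy mc lit s = lit s / 2 * nc mc + 2 * s := rfl
    have h8 := h7 (lit s / 2) (hlit s hs3) (2 * s) (by omega) (by omega)
    rw [← hym] at h8
    have hp := prv_lt (mc := mc) (S := S) hy
    have hpn := prv_ne (mc := mc) (yy mc lit s)
    unfold pR at hE2
    rw [if_pos hy, if_pos hyu, hys] at hE2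
    unfold lv
    rcases Nat.mod_two_eq_zero_or_one (lit s) with hl | hl
    · rw [if_pos hl] at hE2
      by_cases hc : m (lit s / 2 * nc mc) = lit s / 2 * nc mc
      · simp [hc, hl]
      · rw [if_neg hc] at h8
        rw [h8] at hE2
        exact absurd (before34 (by omega) (by omega) (by omega) (by omega) (by omega)) hE2
    · rw [if_neg (by omega)] at hE2
      by_cases hc : m (lit s / 2 * nc mc) = lit s / 2 * nc mc
      · rw [if_pos hc] at h8
        rw [h8] at hE2
        exact absurd (before34 (by omega) (by omega) (by omega) (by omega) (by omega)) hE2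
      · simp [hc, hl]
  rcases hc with e | ⟨h, -⟩ | ⟨-, e | e | e⟩
  · exact absurd e (h1 _ (by omega))
  · omega
  · exact ⟨0, by norm_num, key 0 (by norm_num) (by omega)⟩
  · exact ⟨1, by norm_num, key 1 (by norm_num) (by omega)⟩
  · exact ⟨2, by norm_num, key 2 (by norm_num) (by omega)⟩

/-- from an assignment to a matching -/
theorem matching_of_sat {τ : ℕ → Bool}
    (hτ : ∀ j < mc, ∃ i < 3, lv τ (lit (3 * j + i)) = true) :
    ∃ (M : (dat mc S lit hlit).inst.Asg) (O : Set (Fin (dat mc S lit hlit).inst.nH)),
      PairwiseStable M O ∧ (dat mc S lit hlit).nR ≤ size M := by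
  classical
  have hch : ∀ j, ∃ i < 3, j < mc → lv τ (lit (3 * j + i)) = true := by
    intro j
    by_cases hj : j < mc
    · obtain ⟨i, h1, h2⟩ := hτ j hj
      exact ⟨i, h1, fun _ => h2⟩
    · exact ⟨0, by norm_num, fun h => absurd h hj⟩
  choose ch hch3 hchl using hch
  have hQ : QQ mc S = BB mc S + 3 * mc := rfl
  have hnc : nc mc = 6 * mc + 2 := rfl
  let cond : ℕ → Prop := fun r => (r % nc mc % 2 = 0 ↔ τ (r / nc mc) = true)
  have hcn : ∀ k, cond (nxt mc k) ↔ ¬ cond k := by
    intro k
    have h1 := nxt_par (mc := mc) k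
    simp only [cond]
    rw [(nxt_spec (mc := mc) k).1]
    have e : (nxt mc k % nc mc % 2 = 0) ↔ ¬ (k % nc mc % 2 = 0) := by omega
    rw [e]
    tauto
  have hcp : ∀ k, cond (prv mc k) ↔ ¬ cond k := by
    intro k
    have h1 := hcn (prv mc k)
    rw [nxt_prv] at h1
    tauto
  let m : ℕ → ℕ := fun r => if r < BB mc S then (if cond r then r else prv mc r) else
    BB mc S + 3 * ((r - BB mc S) / 2) + ch ((r - BB mc S) / 2)
  have hm1 : ∀ r, r < BB mc S → cond r → m r = r := by
    intro r hr hc
    simp only [m]
    rw [if_pos hr, if_pos hc]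
  have hm2 : ∀ r, r < BB mc S → ¬ cond r → m r = prv mc r := by
    intro r hr hc
    simp only [m]
    rw [if_pos hr, if_neg hc]
  have hm3 : ∀ r, ¬ r < BB mc S → m r = BB mc S + 3 * ((r - BB mc S) / 2) +
      ch ((r - BB mc S) / 2) := by
    intro r hr
    simp only [m]
    rw [if_neg hr]
  have hm4 : ∀ r, r < BB mc S → m r < BB mc S ∧ cond (m r) := by
    intro r hr
    by_cases hc : cond r
    · rw [hm1 r hr hc]; exact ⟨hr, hc⟩
    · rw [hm2 r hr hc]; exact ⟨prv_lt hr, (hcp r).2 hc⟩
  have hm5 : ∀ r, ¬ r < BB mc S → BB mc S ≤ m r := by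
    intro r hr
    rw [hm3 r hr]
    omega
  -- who is assigned to a hospital of a cycle
  have hm6 : ∀ k, k < BB mc S → cond k → ∀ x, m x = k ↔ x = k ∨ x = nxt mc k := by
    intro k hk hck x
    constructor
    · intro hx
      have hxB : x < BB mc S := by
        by_contra hc
        have := hm5 x hc
        omega
      by_cases hc : cond x
      · rw [hm1 x hxB hc] at hx
        exact Or.inl hx
      · rw [hm2 x hxB hc] at hx
        right
        rw [← hx, nxt_prv]
    · rintro (rfl | rfl)
      · exact hm1 x hk hck
      · rw [hm2 _ (nxt_lt hk) (fun h => (hcn k).1 h hck), prv_nxt]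
  refine exists_matching (D := dat mc S lit hlit) m ?_ ?_ ?_
  · intro r hr
    rw [nR_eq] at hr
    rw [pR_eq, mem_pR]
    by_cases hB : r < BB mc S
    · right; left
      refine ⟨hB, ?_⟩
      by_cases hc : cond r
      · rw [hm1 r hB hc]; exact Or.inl rfl
      · rw [hm2 r hB hc]; exact Or.inr (Or.inl rfl)
    · right; right
      have := hch3 ((r - BB mc S) / 2)
      rw [hm3 r hB]
      refine ⟨by omega, ?_⟩
      omega
  · intro r hr
    rw [nR_eq] at hr ⊢
    by_cases hB : r < BB mc S
    · obtain ⟨h1, h2⟩ := hm4 r hB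
      refine ⟨m r, nxt mc (m r), (nxt_ne _).symm, by omega, ?_, fun x _ => hm6 _ h1 h2 x⟩
      have := nxt_lt h1
      omega
    · refine ⟨BB mc S + 2 * ((r - BB mc S) / 2), BB mc S + 2 * ((r - BB mc S) / 2) + 1,
        by omega, by omega, by omega, fun x _ => ?_⟩
      rw [hm3 r hB]
      have h3 := hch3 ((r - BB mc S) / 2)
      by_cases hx : x < BB mc S
      · have := hm4 x hx
        constructor
        · intro h; omega
        · intro h; omega
      · rw [hm3 x hx]
        have h4 := hch3 ((x - BB mc S) / 2)
        constructor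
        · intro h
          have : (x - BB mc S) / 2 = (r - BB mc S) / 2 := by omega
          omega
        · intro h
          have : (x - BB mc S) / 2 = (r - BB mc S) / 2 := by omega
          rw [this]
  · intro r hr y hy hmem hbef x hx hmx hbef2
    rw [nR_eq] at hr hy hx
    rw [pR_eq] at hmem hbef
    rw [pH_eq] at hbef2
    have irr : ∀ (l : List ℕ) (a : ℕ), ¬ Before l a a := fun l a => lt_irrefl _
    by_cases hB : r < BB mc S
    · obtain ⟨h1, h2⟩ := hm4 r hB
      have hmy : m y = m r := by
        rw [hm6 _ h1 h2]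
        rw [mem_pR] at hmem
        rcases hmem with e | ⟨h, e | e | ⟨hu, e⟩⟩ | ⟨h, e⟩
        · omega
        · exact Or.inl e.symm
        · right
          rw [e, nxt_prv]
        · omega
        · omega
      rw [hmy] at hbef
      exact irr _ _ hbef
    · set j := (r - BB mc S) / 2 with hj
      have hj' : j < mc := by omega
      have h3 := hch3 j
      have h4 := hchl j hj'
      set s := 3 * j + ch j with hs
      have hs3 : s < 3 * mc := by omega
      have hmr : m r = BB mc S + s := by rw [hm3 r hB, ← hj, hs]; ring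
      rw [hmr] at hmem hbef
      have hmem2 := hmem
      rw [mem_pR] at hmem2
      by_cases hyB : y < BB mc S
      · -- the resident of a cycle
        have hu : used mc lit y ∧ s = sl mc y := by
          rcases hmem2 with e | ⟨h, e | e | ⟨hu, e⟩⟩ | ⟨h, e⟩
          · omega
          · omega
          · have := prv_lt (mc := mc) (S := S) hyB
            omega
          · exact ⟨hu, by omega⟩
          · omega
        have hp := prv_lt (mc := mc) (S := S) hyB
        have hpn := prv_ne (mc := mc) y
        have hpar := hu.1.1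
        have hvar := hu.1.2.2
        rw [← hu.2] at hvar
        unfold pR at hbef
        rw [if_pos hyB, if_pos hu.1, ← hu.2] at hbef
        unfold lv at h4
        rw [hvar] at h4
        rcases Nat.mod_two_eq_zero_or_one (lit s) with hl | hl
        · have hτv : τ (y / nc mc) = true := by simpa [hl] using h4
          have hcy : cond y := ⟨fun _ => hτv, fun _ => hpar⟩
          rw [if_pos hl, hm1 y hyB hcy] at hbef
          exact not_before32 (by omega) (by omega) (by omega) hbef
        · have hτv : τ (y / nc mc) = false := by simpa [hl] using h4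
          have hcy : ¬ cond y := fun h => by
            have := h.1 hpar
            rw [hτv] at this
            exact Bool.false_ne_true this
          rw [if_neg (by omega), hm2 y hyB hcy] at hbef
          exact not_before32 (by omega) (by omega) (by omega) hbef
      · -- the residents of the clause
        have hmy : m y = BB mc S + s := by
          have hyj : (y - BB mc S) / 2 = j := by
            rcases hmem2 with e | ⟨h, _⟩ | ⟨h, e⟩
            · omega
            · omega
            · omega
          rw [hm3 y hyB, hyj, hs]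
          ring
        rw [hmy] at hbef
        exact irr _ _ hbef

omit hlit in
/-- If the first choices of the residents are different then no hospital is popular. -/
theorem not_popular_of {D : Data} (q : ℕ) (hq : ∀ r < D.nR, q + r < D.nH)
    (hl : ∀ r < D.nR, ∃ l, D.pR r = (q + r) :: l) (h : Fin D.inst.nH) :
    ¬ Popular D.inst h := by
  classical
  rintro ⟨M, ⟨hM, hopt⟩, hlow⟩
  have hlt : ∀ r : Fin D.inst.nR, q + r.val < D.nH := fun r => hq r.val r.isLt
  let M₀ : D.inst.Asg := fun r => some ⟨q + r.val, hlt r⟩
  have hM₀ : ∀ (r : Fin D.inst.nR) (h : Fin D.inst.nH), M₀ r = some h ↔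
      q + r.val = h.val := by
    intro r h
    simp only [M₀, Option.some.injEq, Fin.ext_iff]
  have hmem : ∀ r : Fin D.inst.nR, q + r.val ∈ D.pR r.val := by
    intro r
    obtain ⟨l, hl⟩ := hl r.val r.isLt
    rw [hl]
    simp
  have hhead : ∀ (r : Fin D.inst.nR) (x : ℕ), ¬ Before (D.pR r.val) x (q + r.val) := by
    intro r x
    obtain ⟨l, hl⟩ := hl r.val r.isLt
    unfold Before
    rw [hl, idx_self]
    exact Nat.not_lt_zero _
  have hload : ∀ h : Fin D.inst.nH, load M₀ h ≤ 1 := by
    intro h
    unfold load
    rw [Finset.card_le_one]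
    intro a ha b hb
    rw [Finset.mem_filter] at ha hb
    have h1 := (hM₀ _ _).1 ha.2
    have h2 := (hM₀ _ _).1 hb.2
    apply Fin.ext
    omega
  have hst : ClassicalStable M₀ := by
    refine ⟨?_, fun h => (hload h).trans (by norm_num), ?_⟩
    · intro r h hr
      rw [hM₀] at hr
      apply (mem_pmap_mk _ _).2
      rw [← hr]
      exact hmem r
    · rintro r h ⟨_, hw⟩ _
      rcases hw with hw | ⟨h', hw1, hw2⟩
      · simp [M₀] at hw
      · rw [hM₀] at hw1
        have h5 := (before_pmap _ _ _).1 hw2
        rw [← hw1] at h5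
        exact hhead r _ h5
  have heq : ∀ r, M r = M₀ r := by
    intro r
    rcases hopt M₀ hst r ⟨q + r.val, hlt r⟩ rfl with e | ⟨h', _, hb⟩
    · exact e
    · exact absurd ((before_pmap _ _ _).1 hb) (hhead r _)
  have hM' : M = M₀ := funext heq
  rw [hM'] at hlow
  have h3 : (2 : ℕ) ≤ load M₀ h := hlow
  have h4 := hload h
  omega

/-- no hospital of the instance is popular -/
theorem not_popular (h : Fin (dat mc S lit hlit).inst.nH) :
    ¬ Popular (dat mc S lit hlit).inst h := by
  refine not_popular_of (D := dat mc S lit hlit) (QQ mc S) ?_ ?_ h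
  · intro r hr
    rw [nR_eq] at hr
    rw [nH_eq]
    omega
  · intro r _
    rw [pR_eq]
    unfold pR
    split_ifs
    · exact ⟨_, rfl⟩
    · exact ⟨_, rfl⟩
    · exact ⟨_, rfl⟩
    · exact ⟨_, rfl⟩

end Pool.Agent.H.MP_52010b_lc
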