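import Pool.Agent.H.MP_52010b_lc.Build

/-!
The instance attached to a formula with three literals in each clause.
-/

namespace Pool.Agent.H.MP_52010b_lc

/-- The truth value of the literal number `l`: it belongs to the variable `l / 2`, and it is
positive when `l` is even. -/
def lv (τ : ℕ → Bool) (l : ℕ) : Bool := τ (l / 2) == decide (l % 2 = 0)

variable (mc S : ℕ) (lit : ℕ → ℕ)

/-- the length of the cycles -/
def nc : ℕ := 6 * mc + 2
/-- the number of residents on the cycles -/
def BB : ℕ := S * nc mc
/-- the number of hospitals which are not private -/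
def QQ : ℕ := BB mc S + 3 * mc

/-- next place on the cycle -/
def nxt (k : ℕ) : ℕ := if k % nc mc = nc mc - 1 then k - (nc mc - 1) else k + 1
/-- previous place on the cycle -/
def prv (k : ℕ) : ℕ := if k % nc mc = 0 then k + (nc mc - 1) else k - 1

/-- the slot of a resident on a cycle -/
def sl (r : ℕ) : ℕ := r % nc mc / 2

/-- the resident is linked to a clause -/
def used (r : ℕ) : Prop := r % nc mc % 2 = 0 ∧ sl mc r < 3 * mc ∧ lit (sl mc r) / 2 = r / nc mc

instance (r : ℕ) : Decidable (used mc lit r) := by unfold used; infer_instance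

/-- the preference lists of the residents -/
def pR (r : ℕ) : List ℕ :=
  if r < BB mc S then
    (if used mc lit r then
      (if lit (sl mc r) % 2 = 0 then [QQ mc S + r, r, BB mc S + sl mc r, prv mc r]
      else [QQ mc S + r, prv mc r, BB mc S + sl mc r, r])
    else [QQ mc S + r, r, prv mc r])
  else [QQ mc S + r, BB mc S + 3 * ((r - BB mc S) / 2), BB mc S + 3 * ((r - BB mc S) / 2) + 1,
    BB mc S + 3 * ((r - BB mc S) / 2) + 2]

/-- the resident of a cycle linked to slot `s` -/
def yy (s : ℕ) : ℕ := lit s / 2 * nc mc + 2 * s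

/-- the preference lists of the hospitals -/
def pH (k : ℕ) : List ℕ :=
  if k < BB mc S then [k, nxt mc k]
  else if k < QQ mc S then [yy mc lit (k - BB mc S), BB mc S + 2 * ((k - BB mc S) / 3),
    BB mc S + 2 * ((k - BB mc S) / 3) + 1]
  else [k - QQ mc S]

variable {mc S lit}

theorem nc_pos : 0 < nc mc := by unfold nc; omega

theorem BB_mod : BB mc S % nc mc = 0 := by unfold BB; exact Nat.mul_mod_left _ _

/-- places on cycles are pairs -/
theorem div_mod (k : ℕ) : k = k / nc mc * nc mc + k % nc mc := by
  rw [mul_comm]; exact (Nat.div_add_mod _ _).symm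

theorem lt_BB {k : ℕ} : k < BB mc S ↔ k / nc mc < S := by
  unfold BB
  rw [Nat.div_lt_iff_lt_mul nc_pos]

theorem mod_lt' (k : ℕ) : k % nc mc < nc mc := Nat.mod_lt _ nc_pos

theorem of_pair {v t : ℕ} (ht : t < nc mc) : (v * nc mc + t) % nc mc = t ∧
    (v * nc mc + t) / nc mc = v := by
  constructor
  · rw [Nat.add_comm, Nat.add_mul_mod_self_right, Nat.mod_eq_of_lt ht]
  · rw [Nat.add_comm, Nat.add_mul_div_right _ _ nc_pos, Nat.div_eq_of_lt ht, zero_add]

theorem nxt_spec (k : ℕ) : nxt mc k / nc mc = k / nc mc ∧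
    nxt mc k % nc mc = if k % nc mc = nc mc - 1 then 0 else k % nc mc + 1 := by
  have h1 := div_mod (mc := mc) k
  have h2 := mod_lt' (mc := mc) k
  unfold nxt
  split_ifs with h
  · have e : k - (nc mc - 1) = k / nc mc * nc mc + 0 := by omega
    rw [e]
    have := of_pair (mc := mc) (v := k / nc mc) (t := 0) nc_pos
    exact ⟨this.2, this.1⟩
  · have e : k + 1 = k / nc mc * nc mc + (k % nc mc + 1) := by omega
    rw [e]
    have := of_pair (mc := mc) (v := k / nc mc) (t := k % nc mc + 1) (by omega)
    exact ⟨this.2, this.1⟩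

theorem prv_spec (k : ℕ) : prv mc k / nc mc = k / nc mc ∧
    prv mc k % nc mc = if k % nc mc = 0 then nc mc - 1 else k % nc mc - 1 := by
  have h1 := div_mod (mc := mc) k
  have h2 := mod_lt' (mc := mc) k
  have h0 := nc_pos (mc := mc)
  unfold prv
  split_ifs with h
  · have e : k + (nc mc - 1) = k / nc mc * nc mc + (nc mc - 1) := by omega
    rw [e]
    have := of_pair (mc := mc) (v := k / nc mc) (t := nc mc - 1) (by omega)
    exact ⟨this.2, this.1⟩
  · have e : k - 1 = k / nc mc * nc mc + (k % nc mc - 1) := by omega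
    rw [e]
    have := of_pair (mc := mc) (v := k / nc mc) (t := k % nc mc - 1) (by omega)
    exact ⟨this.2, this.1⟩

theorem eq_of {a b : ℕ} (h1 : a / nc mc = b / nc mc) (h2 : a % nc mc = b % nc mc) : a = b := by
  rw [div_mod (mc := mc) a, div_mod (mc := mc) b, h1, h2]

theorem prv_nxt (k : ℕ) : prv mc (nxt mc k) = k := by
  have h1 := nxt_spec (mc := mc) k
  have h2 := prv_spec (mc := mc) (nxt mc k)
  have h3 := mod_lt' (mc := mc) k
  have h0 : nc mc = 6 * mc + 2 := rfl
  apply eq_of (mc := mc)
  · rw [h2.1, h1.1]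
  · rw [h2.2, h1.2]
    by_cases h : k % nc mc = nc mc - 1
    · rw [if_pos h, if_pos rfl, h]
    · rw [if_neg h, if_neg (Nat.succ_ne_zero _)]
      omega

theorem nxt_prv (k : ℕ) : nxt mc (prv mc k) = k := by
  have h1 := prv_spec (mc := mc) k
  have h2 := nxt_spec (mc := mc) (prv mc k)
  have h3 := mod_lt' (mc := mc) k
  have h0 : nc mc = 6 * mc + 2 := rfl
  apply eq_of (mc := mc)
  · rw [h2.1, h1.1]
  · rw [h2.2, h1.2]
    split_ifs <;> omega

theorem nxt_lt {k : ℕ} (hk : k < BB mc S) : nxt mc k < BB mc S := by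
  rw [lt_BB, (nxt_spec k).1]
  exact lt_BB.1 hk

theorem prv_lt {k : ℕ} (hk : k < BB mc S) : prv mc k < BB mc S := by
  rw [lt_BB, (prv_spec k).1]
  exact lt_BB.1 hk

/-- the parity of the place -/
theorem nxt_par (k : ℕ) : nxt mc k % nc mc % 2 ≠ k % nc mc % 2 := by
  have h3 := mod_lt' (mc := mc) k
  have h0 : nc mc = 6 * mc + 2 := rfl
  rw [(nxt_spec k).2]
  split_ifs <;> omega

theorem prv_par (k : ℕ) : prv mc k % nc mc % 2 ≠ k % nc mc % 2 := by
  have h3 := mod_lt' (mc := mc) k
  have h0 : nc mc = 6 * mc + 2 := rfl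
  rw [(prv_spec k).2]
  split_ifs <;> omega

theorem nxt_ne (k : ℕ) : nxt mc k ≠ k := fun h => nxt_par (mc := mc) k (by rw [h])
theorem prv_ne (k : ℕ) : prv mc k ≠ k := fun h => prv_par (mc := mc) k (by rw [h])

theorem yy_spec {s : ℕ} (hs : s < 3 * mc) : yy mc lit s / nc mc = lit s / 2 ∧
    yy mc lit s % nc mc = 2 * s := by
  unfold yy
  have := of_pair (mc := mc) (v := lit s / 2) (t := 2 * s) (by unfold nc; omega)
  exact ⟨this.2, this.1⟩

theorem yy_lt (hlit : ∀ s < 3 * mc, lit s / 2 < S) {s : ℕ} (hs : s < 3 * mc) :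
    yy mc lit s < BB mc S := by
  rw [lt_BB, (yy_spec hs).1]
  exact hlit s hs

theorem used_yy {s : ℕ} (hs : s < 3 * mc) : used mc lit (yy mc lit s) := by
  have h := yy_spec (lit := lit) hs
  unfold used sl
  rw [h.1, h.2]
  have e : 2 * s / 2 = s := by omega
  rw [e]
  exact ⟨by omega, hs, rfl⟩

theorem sl_yy {s : ℕ} (hs : s < 3 * mc) : sl mc (yy mc lit s) = s := by
  have h := yy_spec (lit := lit) hs
  unfold sl
  rw [h.2]
  omega

theorem yy_sl {r : ℕ} (hr : used mc lit r) : yy mc lit (sl mc r) = r := by
  have h := yy_spec (lit := lit) hr.2.1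
  apply eq_of (mc := mc)
  · rw [h.1]; exact hr.2.2
  · rw [h.2]
    have := hr.1
    unfold sl
    omega

theorem sl_lt {r : ℕ} (hr : used mc lit r) : sl mc r < 3 * mc := hr.2.1

theorem mem_pR {r h : ℕ} : h ∈ pR mc S lit r ↔
    h = QQ mc S + r ∨ (r < BB mc S ∧ (h = r ∨ h = prv mc r ∨
      (used mc lit r ∧ h = BB mc S + sl mc r))) ∨
    (BB mc S ≤ r ∧ (h = BB mc S + 3 * ((r - BB mc S) / 2) ∨
      h = BB mc S + 3 * ((r - BB mc S) / 2) + 1 ∨ h = BB mc S + 3 * ((r - BB mc S) / 2) + 2)) := by
  unfold pR
  by_cases h1 : r < BB mc S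
  · have h1' : ¬ BB mc S ≤ r := by omega
    rw [if_pos h1]
    by_cases h2 : used mc lit r
    · rw [if_pos h2]
      by_cases h3 : lit (sl mc r) % 2 = 0
      · rw [if_pos h3]
        simp only [List.mem_cons, List.not_mem_nil, or_false, h1, h1', h2, true_and, false_and]
        tauto
      · rw [if_neg h3]
        simp only [List.mem_cons, List.not_mem_nil, or_false, h1, h1', h2, true_and, false_and]
        tauto
    · rw [if_neg h2]
      simp only [List.mem_cons, List.not_mem_nil, or_false, h1, h1', h2, true_and, false_and]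
  · have h1' : BB mc S ≤ r := by omega
    rw [if_neg h1]
    simp only [List.mem_cons, List.not_mem_nil, or_false, h1, h1', true_and, false_and, false_or]

theorem mem_pH {r h : ℕ} : r ∈ pH mc S lit h ↔
    (h < BB mc S ∧ (r = h ∨ r = nxt mc h)) ∨
    (BB mc S ≤ h ∧ h < QQ mc S ∧ (r = yy mc lit (h - BB mc S) ∨
      r = BB mc S + 2 * ((h - BB mc S) / 3) ∨ r = BB mc S + 2 * ((h - BB mc S) / 3) + 1)) ∨
    (QQ mc S ≤ h ∧ r = h - QQ mc S) := by
  have hQ : QQ mc S = BB mc S + 3 * mc := rfl
  unfold pH
  by_cases h1 : h < BB mc S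
  · have h2 : ¬ BB mc S ≤ h := by omega
    have h3 : ¬ QQ mc S ≤ h := by omega
    rw [if_pos h1]
    simp only [List.mem_cons, List.not_mem_nil, or_false, h1, h2, h3, true_and, false_and]
  · rw [if_neg h1]
    by_cases h4 : h < QQ mc S
    · have h2 : BB mc S ≤ h := by omega
      have h3 : ¬ QQ mc S ≤ h := by omega
      rw [if_pos h4]
      simp only [List.mem_cons, List.not_mem_nil, or_false, h1, h2, h3, h4, true_and, false_and,
        false_or]
    · have h3 : QQ mc S ≤ h := by omega
      rw [if_neg h4]
      simp only [List.mem_cons, List.not_mem_nil, or_false, h1, h4, h3, true_and, false_and,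
        and_false, false_or]

/-- the data of the instance -/
def dat (mc S : ℕ) (lit : ℕ → ℕ) (hlit : ∀ s < 3 * mc, lit s / 2 < S) : Data where
  nR := BB mc S + 2 * mc
  nH := QQ mc S + (BB mc S + 2 * mc)
  pR := pR mc S lit
  pH := pH mc S lit
  nodR := by
    intro r hr
    have hQ : QQ mc S = BB mc S + 3 * mc := rfl
    unfold pR
    by_cases h1 : r < BB mc S
    · have h2 := prv_lt (S := S) h1
      have h3 := prv_ne (mc := mc) r
      rw [if_pos h1]
      by_cases h4 : used mc lit r
      · have h5 := sl_lt h4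
        rw [if_pos h4]
        split_ifs
        · simp only [List.nodup_cons, List.mem_cons, List.not_mem_nil, or_false, not_or,
            not_false_iff, List.nodup_nil, and_true]
          omega
        · simp only [List.nodup_cons, List.mem_cons, List.not_mem_nil, or_false, not_or,
            not_false_iff, List.nodup_nil, and_true]
          omega
      · rw [if_neg h4]
        simp only [List.nodup_cons, List.mem_cons, List.not_mem_nil, or_false, not_or,
          not_false_iff, List.nodup_nil, and_true]
        omega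
    · rw [if_neg h1]
      simp only [List.nodup_cons, List.mem_cons, List.not_mem_nil, or_false, not_or,
        not_false_iff, List.nodup_nil, and_true]
      omega
  nodH := by
    intro h hh
    have hQ : QQ mc S = BB mc S + 3 * mc := rfl
    unfold pH
    by_cases h1 : h < BB mc S
    · have h3 := nxt_ne (mc := mc) h
      rw [if_pos h1]
      simp only [List.nodup_cons, List.mem_cons, List.not_mem_nil, or_false, not_or,
        not_false_iff, List.nodup_nil, and_true]
      omega
    · rw [if_neg h1]
      by_cases h4 : h < QQ mc S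
      · have h5 := yy_lt hlit (s := h - BB mc S) (by omega)
        rw [if_pos h4]
        simp only [List.nodup_cons, List.mem_cons, List.not_mem_nil, or_false, not_or,
          not_false_iff, List.nodup_nil, and_true]
        omega
      · rw [if_neg h4]
        simp
  ltR := by
    intro r hr h hh
    have hQ : QQ mc S = BB mc S + 3 * mc := rfl
    rw [mem_pR] at hh
    rcases hh with e | ⟨h1, e | e | ⟨h2, e⟩⟩ | ⟨h1, e | e | e⟩
    · omega
    · omega
    · have := prv_lt (S := S) h1
      omega
    · have := sl_lt h2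
      omega
    · omega
    · omega
    · omega
  ltH := by
    intro h hh r hr
    have hQ : QQ mc S = BB mc S + 3 * mc := rfl
    rw [mem_pH] at hr
    rcases hr with ⟨h1, e | e⟩ | ⟨h1, h2, e | e | e⟩ | ⟨h1, e⟩
    · omega
    · have := nxt_lt (S := S) h1
      omega
    · have := yy_lt hlit (s := h - BB mc S) (by omega)
      omega
    · omega
    · omega
    · omega
  acc := by
    intro r hr h hh
    have hQ : QQ mc S = BB mc S + 3 * mc := rfl
    rw [mem_pR, mem_pH]
    constructor
    · rintro (e | ⟨h1, e | e | ⟨h2, e⟩⟩ | ⟨h1, e | e | e⟩)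
      · right; right; omega
      · left; omega
      · left
        have := prv_lt (S := S) h1
        refine ⟨by omega, Or.inr ?_⟩
        rw [e, nxt_prv]
      · right; left
        have := sl_lt h2
        refine ⟨by omega, by omega, Or.inl ?_⟩
        rw [e, Nat.add_sub_cancel_left, yy_sl h2]
      · right; left; omega
      · right; left; omega
      · right; left; omega
    · rintro (⟨h1, e | e⟩ | ⟨h1, h2, e | e | e⟩ | ⟨h1, e⟩)
      · right; left; omega
      · right; left
        have := nxt_lt (S := S) h1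
        refine ⟨by omega, Or.inr (Or.inl ?_)⟩
        rw [e, prv_nxt]
      · right; left
        have h3 : h - BB mc S < 3 * mc := by omega
        have h4 := yy_lt hlit h3
        refine ⟨by omega, Or.inr (Or.inr ⟨?_, ?_⟩)⟩
        · rw [e]; exact used_yy h3
        · rw [e, sl_yy h3]; omega
      · right; right; omega
      · right; right; omega
      · left; omega

end Pool.Agent.H.MP_52010b_lc
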