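import Pool.Agent.H.MP_52010b_lc.Equiv
import Pool.Agent.H.MP_c8e747_lc.Hard

/-!
The reduction is computable in polynomial time.
-/

namespace Pool.Agent.H.MP_52010b_lc

open Turing
open Pool.Agent.H.MP_84f0af_lc (Env UF UP Emits IsVar Ren)
open Pool.Agent.H.MP_c8e747_lc (uat uinp)

theorem encList_nil : encList [] = [none] := rfl
theorem encList_cons (a : ℕ) (l : List ℕ) : encList (a :: l) = encNat a ++ encList l := by
  unfold encList
  rw [List.flatMap_cons, List.append_assoc]

section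
variable {Γ₀ τ : Type} [Env τ Γ₀]

theorem eNat {f : τ → ℕ} (hf : UF (Option (Option Bool)) f) :
    Emits (Option (Option Bool)) (fun t => encNat (f t)) :=
  (Emits.bits (fun b => some (some b)) hf).append (Emits.sym (some none))

theorem eNil : Emits (Option (Option Bool)) (fun _ : τ => encList []) := Emits.sym none

theorem eCons {f : τ → ℕ} (hf : UF (Option (Option Bool)) f) {l : τ → List ℕ}
    (hl : Emits (Option (Option Bool)) (fun t => encList (l t))) :
    Emits (Option (Option Bool)) (fun t => encList (f t :: l t)) :=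
  ((eNat hf).append hl).congr fun t => (encList_cons _ _).symm

theorem eIte {P : τ → Prop} [∀ t, Decidable (P t)] (hP : UP (Option (Option Bool)) P)
    {l l' : τ → List ℕ} (hl : Emits (Option (Option Bool)) (fun t => encList (l t)))
    (hl' : Emits (Option (Option Bool)) (fun t => encList (l' t))) :
    Emits (Option (Option Bool)) (fun t => encList (if P t then l t else l' t)) :=
  (Emits.ite hP hl hl').congr fun t => by split_ifs <;> rfl

variable {Γ₁ : Type} {mc S : List Γ₀ → ℕ} {lit : ℕ × List Γ₀ → ℕ}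

theorem UF.nc (hm : UF Γ₁ mc) : UF Γ₁ (fun x => nc (mc x)) :=
  ((UF.const 6).mul hm).add (UF.const 2)
theorem UF.BB (hm : UF Γ₁ mc) (hS : UF Γ₁ S) : UF Γ₁ (fun x => BB (mc x) (S x)) :=
  hS.mul (UF.nc hm)
theorem UF.QQ (hm : UF Γ₁ mc) (hS : UF Γ₁ S) : UF Γ₁ (fun x => QQ (mc x) (S x)) :=
  (UF.BB hm hS).add ((UF.const 3).mul hm)

theorem UF.nxt (hm : UF Γ₁ mc) {k : τ → ℕ} (hk : UF Γ₁ k) :
    UF Γ₁ (fun t => nxt (mc (Env.inp t)) (k t)) := by
  have h : UF Γ₁ (fun t : τ => MP_52010b_lc.nc (mc (Env.inp t))) := uinp (UF.nc hm)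
  exact UF.ite (UP.eq (hk.mod h) (h.sub (UF.const 1))) (hk.sub (h.sub (UF.const 1)))
    (hk.add (UF.const 1))

theorem UF.prv (hm : UF Γ₁ mc) {k : τ → ℕ} (hk : UF Γ₁ k) :
    UF Γ₁ (fun t => prv (mc (Env.inp t)) (k t)) := by
  have h : UF Γ₁ (fun t : τ => MP_52010b_lc.nc (mc (Env.inp t))) := uinp (UF.nc hm)
  exact UF.ite (UP.eq (hk.mod h) (UF.const 0)) (hk.add (h.sub (UF.const 1)))
    (hk.sub (UF.const 1))

theorem UF.sl (hm : UF Γ₁ mc) {k : τ → ℕ} (hk : UF Γ₁ k) :
    UF Γ₁ (fun t => sl (mc (Env.inp t)) (k t)) :=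
  (hk.mod (uinp (UF.nc hm))).div (UF.const 2)

theorem UP.used (hm : UF Γ₁ mc) (hl : UF Γ₁ lit) {k : τ → ℕ} (hk : UF Γ₁ k) :
    UP Γ₁ (fun t => used (mc (Env.inp t)) (fun s => lit (s, Env.inp t)) (k t)) := by
  have h : UF Γ₁ (fun t : τ => MP_52010b_lc.nc (mc (Env.inp t))) := uinp (UF.nc hm)
  exact (UP.eq ((hk.mod h).mod (UF.const 2)) (UF.const 0)).and
    ((UP.lt (UF.sl hm hk) ((UF.const 3).mul (uinp hm))).and
    (UP.eq ((uat hl (UF.sl hm hk)).div (UF.const 2)) (hk.div h)))

theorem UF.yy (hm : UF Γ₁ mc) (hl : UF Γ₁ lit) {k : τ → ℕ} (hk : UF Γ₁ k) :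
    UF Γ₁ (fun t => yy (mc (Env.inp t)) (fun s => lit (s, Env.inp t)) (k t)) :=
  (((uat hl hk).div (UF.const 2)).mul (uinp (UF.nc hm))).add ((UF.const 2).mul hk)

end

variable {Γ₀ : Type} {mc S : List Γ₀ → ℕ} {lit : ℕ × List Γ₀ → ℕ}

/-- writing the preference lists of the residents -/
theorem ePR (hm : UF (Option (Option Bool)) mc) (hS : UF (Option (Option Bool)) S)
    (hl : UF (Option (Option Bool)) lit) :
    Emits (Option (Option Bool)) (fun p : ℕ × List Γ₀ =>
      encList (pR (mc p.2) (S p.2) (fun s => lit (s, p.2)) p.1)) := by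
  have hr : UF (Option (Option Bool)) (fun p : ℕ × List Γ₀ => p.1) := UF.fst
  have hB : UF (Option (Option Bool)) (fun p : ℕ × List Γ₀ => BB (mc p.2) (S p.2)) :=
    uinp (τ := ℕ × List Γ₀) (UF.BB hm hS)
  have hQ : UF (Option (Option Bool)) (fun p : ℕ × List Γ₀ => QQ (mc p.2) (S p.2)) :=
    uinp (τ := ℕ × List Γ₀) (UF.QQ hm hS)
  have hs : UF (Option (Option Bool)) (fun p : ℕ × List Γ₀ => sl (mc p.2) p.1) :=
    UF.sl (τ := ℕ × List Γ₀) hm hr
  have hp : UF (Option (Option Bool)) (fun p : ℕ × List Γ₀ => prv (mc p.2) p.1) :=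
    UF.prv (τ := ℕ × List Γ₀) hm hr
  have hls : UF (Option (Option Bool)) (fun p : ℕ × List Γ₀ => lit (sl (mc p.2) p.1, p.2)) :=
    uat (τ := ℕ × List Γ₀) hl hs
  have hu : UP (Option (Option Bool)) (fun p : ℕ × List Γ₀ =>
      used (mc p.2) (fun s => lit (s, p.2)) p.1) := UP.used (τ := ℕ × List Γ₀) hm hl hr
  have hj : UF (Option (Option Bool)) (fun p : ℕ × List Γ₀ =>
      BB (mc p.2) (S p.2) + 3 * ((p.1 - BB (mc p.2) (S p.2)) / 2)) :=
    hB.add ((UF.const 3).mul ((hr.sub hB).div (UF.const 2)))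
  unfold pR
  exact eIte (UP.lt hr hB)
    (eIte hu
      (eIte (UP.eq (hls.mod (UF.const 2)) (UF.const 0))
        (eCons (hQ.add hr) (eCons hr (eCons (hB.add hs) (eCons hp eNil))))
        (eCons (hQ.add hr) (eCons hp (eCons (hB.add hs) (eCons hr eNil)))))
      (eCons (hQ.add hr) (eCons hr (eCons hp eNil))))
    (eCons (hQ.add hr) (eCons hj (eCons (hj.add (UF.const 1)) (eCons (hj.add (UF.const 2)) eNil))))

/-- writing the preference lists of the hospitals -/
theorem ePH (hm : UF (Option (Option Bool)) mc) (hS : UF (Option (Option Bool)) S)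
    (hl : UF (Option (Option Bool)) lit) :
    Emits (Option (Option Bool)) (fun p : ℕ × List Γ₀ =>
      encList (2 :: 2 :: pH (mc p.2) (S p.2) (fun s => lit (s, p.2)) p.1)) := by
  have hr : UF (Option (Option Bool)) (fun p : ℕ × List Γ₀ => p.1) := UF.fst
  have hB : UF (Option (Option Bool)) (fun p : ℕ × List Γ₀ => BB (mc p.2) (S p.2)) :=
    uinp (τ := ℕ × List Γ₀) (UF.BB hm hS)
  have hQ : UF (Option (Option Bool)) (fun p : ℕ × List Γ₀ => QQ (mc p.2) (S p.2)) :=
    uinp (τ := ℕ × List Γ₀) (UF.QQ hm hS)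
  have hn : UF (Option (Option Bool)) (fun p : ℕ × List Γ₀ => nxt (mc p.2) p.1) :=
    UF.nxt (τ := ℕ × List Γ₀) hm hr
  have hd := hr.sub hB
  have hy : UF (Option (Option Bool)) (fun p : ℕ × List Γ₀ =>
      yy (mc p.2) (fun s => lit (s, p.2)) (p.1 - BB (mc p.2) (S p.2))) :=
    UF.yy (τ := ℕ × List Γ₀) hm hl hd
  have hj : UF (Option (Option Bool)) (fun p : ℕ × List Γ₀ =>
      BB (mc p.2) (S p.2) + 2 * ((p.1 - BB (mc p.2) (S p.2)) / 3)) :=
    hB.add ((UF.const 2).mul (hd.div (UF.const 3)))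
  unfold pH
  exact eCons (UF.const 2) (eCons (UF.const 2) (eIte (UP.lt hr hB)
    (eCons hr (eCons hn eNil))
    (eIte (UP.lt hr hQ)
      (eCons hy (eCons hj (eCons (hj.add (UF.const 1)) eNil)))
      (eCons (hr.sub hQ) eNil))))

/-- the word written by the reduction -/
theorem encode_dat {mc S : ℕ} {lit : ℕ → ℕ} (hlit : ∀ s < 3 * mc, lit s / 2 < S) (K : ℕ) :
    encode ((dat mc S lit hlit).inst, K) =
      encList [(dat mc S lit hlit).nR, (dat mc S lit hlit).nH, K] ++
      (((List.range (dat mc S lit hlit).nR).flatMap fun r => encList (pR mc S lit r)) ++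
      ((List.range (dat mc S lit hlit).nH).flatMap fun h => encList (2 :: 2 :: pH mc S lit h))) := by
  unfold encode
  congr 2
  · rw [← List.map_coe_finRange_eq_range, List.flatMap_map]
    change ((List.finRange (dat mc S lit hlit).nR).flatMap fun r =>
      encList (((dat mc S lit hlit).inst.prefR r).map Fin.val)) = _
    congr 1
    funext r
    rw [map_pmap_mk]
    rfl
  · rw [← List.map_coe_finRange_eq_range, List.flatMap_map]
    change ((List.finRange (dat mc S lit hlit).nH).flatMap fun h =>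
      encList (2 :: 2 :: ((dat mc S lit hlit).inst.prefH h).map Fin.val)) = _
    congr 1
    funext r
    rw [map_pmap_mk]
    rfl

/-- the reduction -/
theorem reduction (Γ : Type) [Fintype Γ] (L : Set (List Γ)) (hL : InNP L) :
    ∃ f : List Γ → Inst × ℕ, Nonempty (TM2ComputableInPolyTime (id : List Γ → List Γ) encode f) ∧
      (∀ x, ∀ h, (f x).1.low h = 2 ∧ (f x).1.up h = 2) ∧ (∀ x, ∀ h, ¬ Inst.Popular (f x).1 h) ∧
      ∀ x, x ∈ L ↔ ∃ (M : (f x).1.Asg) (O : Set (Fin (f x).1.nH)),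
        Inst.PairwiseStable M O ∧ (f x).2 ≤ Inst.size M := by
  obtain ⟨mc, a, b, c, hmc, ha, hb, hc, hiff⟩ :=
    Pool.Agent.H.MP_c8e747_lc.np_3cnf L hL (Option (Option Bool))
  let lit : ℕ × List Γ → ℕ := fun p => if p.1 % 3 = 0 then a (p.1 / 3, p.2) else
    (if p.1 % 3 = 1 then b (p.1 / 3, p.2) else c (p.1 / 3, p.2))
  have hs : UF (Option (Option Bool)) (fun p : ℕ × List Γ => p.1) := UF.fst
  have h3 : UF (Option (Option Bool)) (fun _ : ℕ × List Γ => 3) := UF.const 3
  have hlit : UF (Option (Option Bool)) lit :=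
    UF.ite (UP.eq (hs.mod h3) (UF.const 0)) (uat (τ := ℕ × List Γ) ha (hs.div h3))
      (UF.ite (UP.eq (hs.mod h3) (UF.const 1)) (uat (τ := ℕ × List Γ) hb (hs.div h3))
        (uat (τ := ℕ × List Γ) hc (hs.div h3)))
  let S : List Γ → ℕ := fun x => 1 + ∑ s ∈ Finset.range (3 * mc x), lit (s, x)
  have hS : UF (Option (Option Bool)) S :=
    (UF.const 1).add (UF.sum hlit ((UF.const 3).mul hmc))
  have hlt : ∀ x, ∀ s < 3 * mc x, (fun s => lit (s, x)) s / 2 < S x := by
    intro x s hs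
    have h1 := Finset.single_le_sum (f := fun s => lit (s, x))
      (fun _ _ => Nat.zero_le _) (Finset.mem_range.2 hs)
    have h2 : S x = 1 + ∑ s ∈ Finset.range (3 * mc x), lit (s, x) := rfl
    have h3 : lit (s, x) / 2 ≤ lit (s, x) := Nat.div_le_self _ _
    have h1' : lit (s, x) ≤ ∑ s ∈ Finset.range (3 * mc x), lit (s, x) := h1
    change lit (s, x) / 2 < S x
    omega
  let D : List Γ → Data := fun x => dat (mc x) (S x) (fun s => lit (s, x)) (hlt x)
  have hnR : UF (Option (Option Bool)) (fun x => BB (mc x) (S x) + 2 * mc x) :=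
    (UF.BB hmc hS).add ((UF.const 2).mul hmc)
  have hnH : UF (Option (Option Bool)) (fun x => QQ (mc x) (S x) + (BB (mc x) (S x) + 2 * mc x)) :=
    (UF.QQ hmc hS).add hnR
  have hE : Emits (Option (Option Bool)) (fun x : List Γ =>
      encList [BB (mc x) (S x) + 2 * mc x, QQ (mc x) (S x) + (BB (mc x) (S x) + 2 * mc x),
        BB (mc x) (S x) + 2 * mc x] ++
      (((List.range (BB (mc x) (S x) + 2 * mc x)).flatMap fun r =>
        encList (pR (mc x) (S x) (fun s => lit (s, x)) r)) ++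
      ((List.range (QQ (mc x) (S x) + (BB (mc x) (S x) + 2 * mc x))).flatMap fun h =>
        encList (2 :: 2 :: pH (mc x) (S x) (fun s => lit (s, x)) h)))) :=
    (eCons hnR (eCons hnH (eCons hnR eNil))).append
      ((Emits.loop (ePR hmc hS hlit) hnR).append (Emits.loop (ePH hmc hS hlit) hnH))
  refine ⟨fun x => ((D x).inst, (D x).nR), hE.computable encode _ fun x => ?_, fun x h => ⟨rfl, rfl⟩,
    fun x h => not_popular (hlt x) h, fun x => ?_⟩
  · exact encode_dat (hlt x) _
  · rw [hiff x]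
    have hconv : ∀ τ : ℕ → Bool, (∀ j < mc x, ∃ i < 3, lv τ (lit (3 * j + i, x)) = true) ↔
        ∀ j < mc x, Pool.Agent.H.MP_c8e747_lc.lv τ (a (j, x)) = true ∨
          Pool.Agent.H.MP_c8e747_lc.lv τ (b (j, x)) = true ∨
          Pool.Agent.H.MP_c8e747_lc.lv τ (c (j, x)) = true := by
      intro τ
      have e0 : ∀ j, lit (3 * j + 0, x) = a (j, x) := by
        intro j
        have h1 : (3 * j + 0) % 3 = 0 := by omega
        have h2 : (3 * j + 0) / 3 = j := by omega
        simp only [lit, h1, h2, if_true]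
      have e1 : ∀ j, lit (3 * j + 1, x) = b (j, x) := by
        intro j
        have h1 : (3 * j + 1) % 3 = 1 := by omega
        have h2 : (3 * j + 1) / 3 = j := by omega
        simp only [lit, h1, h2, if_true, one_ne_zero, if_false]
      have e2 : ∀ j, lit (3 * j + 2, x) = c (j, x) := by
        intro j
        have h1 : (3 * j + 2) % 3 = 2 := by omega
        have h2 : (3 * j + 2) / 3 = j := by omega
        have h3 : ¬ (2 : ℕ) = 0 := by norm_num
        have h4 : ¬ (2 : ℕ) = 1 := by norm_num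
        simp only [lit, h1, h2, h3, h4, if_false]
      constructor
      · intro h j hj
        obtain ⟨i, hi, hli⟩ := h j hj
        interval_cases i
        · rw [e0] at hli; exact Or.inl hli
        · rw [e1] at hli; exact Or.inr (Or.inl hli)
        · rw [e2] at hli; exact Or.inr (Or.inr hli)
      · intro h j hj
        rcases h j hj with h1 | h1 | h1
        · exact ⟨0, by norm_num, by rw [e0]; exact h1⟩
        · exact ⟨1, by norm_num, by rw [e1]; exact h1⟩
        · exact ⟨2, by norm_num, by rw [e2]; exact h1⟩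
    constructor
    · rintro ⟨τ, hτ⟩
      exact matching_of_sat (hlt x) ((hconv τ).2 hτ)
    · rintro ⟨M, O, hM, hs⟩
      obtain ⟨τ, hτ⟩ := sat_of_matching (hlt x) hM hs
      exact ⟨τ, (hconv τ).1 hτ⟩

end Pool.Agent.H.MP_52010b_lc
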